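import Mathlib
import Pool.Agent.H701.HW.HalfEx

/-!
# Elliptic curves over number fields: the centre `s = 1` and ambivalent Galois groups

`M/K` is a Galois extension of number fields with group `G = M ≃ₐ[K] M` and `E` is an elliptic curve
over `K` with an integral equation `W` (`IsModel E W`), automorphic over `M`, such that the root numbers
of the real characters are `1`. Let `k` be the order of `L(E/M, s)` at the centre `s = 1`. For
nonsolvable `G` it is not known that the functions `L(E/F, s)` of the fields `F` between `K` and `M` are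
holomorphic at `s = 1`. The known criteria compare `k` with invariants of `G` and hold for all points
with `Re s ≥ 1`. Here the functional equation is used: on AMBIVALENT subgroups (every element is
conjugate to its inverse; for instance symmetric groups, dihedral groups, Weyl groups, `SL₂(2^a)`) all
orders are even, and all criteria hold with `k / 2` instead of `k`.

The L-functions are real ones (the definitions are in the library, in `Q92/RT/Def`, `Q92/RT/Ind`,
`Q7/RL/Ord`, `Q7/RL/Orders`, `Q7/RL/Model`):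
* `LOrder E s₀ n`: the Euler product `L(E, s)` of the problem, computed from minimal models, has a
  meromorphic continuation to `ℂ`, of order `n` at `s₀`;
* `twistedL M W φ`: the function `L(E ⊗ φ, s)` for a class function `φ` of `G`, without the Euler factors
  at the primes dividing `6` or the discriminant of `W` or ramified in `M` (they have no zeros and poles
  for `Re s ≥ 1`); `HasOrder g s₀ n`: `g` has a meromorphic continuation to `ℂ`, of order `n` at `s₀`;
* `induced H ψ`: the character of `G` induced by the linear character `ψ` of the subgroup `H`, so that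
  `twistedL M W (induced H ψ)` is `L(E/M^H ⊗ ψ, s)`; `Irr G`: the irreducible characters;
* `Orders E W s₀ n r`: `n χ` is the order at `s₀` of `L(E ⊗ χ, s)`, `χ` irreducible, and `r F` is the
  order of `L(E/F, s)`, `K ⊆ F ⊆ M`; `⊤` is the field `M` and `⊥` the field `K`;
* `Automorphic M W s₀` (known if `E` is modular over `M`, by Brauer induction and solvable descent): the
  `L(E ⊗ χ, s)`, `χ` irreducible, have a meromorphic continuation, and the `L(E/M^H ⊗ ψ, s)` with `H`
  SOLVABLE have one that is holomorphic at `s₀`; nothing is known for the other subgroups;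
* `FunctionalEquations M W`: the functional equations `Λ(χ, s) = w(χ) Λ(χ̄, 2 - s)` near `s = 1`, and
  `HW.RealRootOne M W Λ`: the root number `w(χ)` is `1` for all real valued `χ`. If the real places of
  `K` are unramified in `M` and the places of bad reduction split completely in `M` then
  `w(χ) = w(E/K) ^ χ(1)`, so this means `w(E/K) = 1`.

From `Pool/Agent/H377/AD/Defs`: `Rigid b X` (every class function on `X` of degree less than `b` with
nonnegative multiplicities on the solvable subgroups is constant on the commutator subgroup),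
`Family r X` (commuting subgroups `X i`, permuted transitively by `G`, rigid below some `b` with
`r < b * (number of subgroups)`) and `Wide`. From `Pool/Agent/H701/HW`: `Ambivalent X` (for all `g` there
is an `x` with `x g x⁻¹ = g⁻¹`) and `CLayered k D` (the normal subgroup `D` is built in several steps by
families in quotients of `G`, where `r = k` is replaced by `r = k / 2` for families of ambivalent groups).
-/

set_option autoImplicit false

open NumberField Subgroup Pool.Agent.H541R3.ART Pool.Agent.W446.AS Pool.Agent.Q7.RL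
  Pool.Agent.Q92.RT Pool.Agent.W353.NF Pool.Agent.H341R2.EC Pool.Agent.H377.AD
  Pool.Agent.H701.HW
open scoped commutatorElement

namespace Pool.Agent.Results.MP_7ed9c3_nt.AmbivalentGroups

/-- (A) The symmetric groups `S_N` and the groups `SL_2(2^a)` are ambivalent; products and quotients of
ambivalent groups are ambivalent. `S_N`, `N ≥ 5`, is rigid below the degree `(2^j - 1) ⌊N / 2^j⌋`,
`j ≥ 2` (for `N = 2^j` this is `N - 1`, the least degree of a nonlinear character), `SL_2(q)`, `q` even, is
rigid below the degree `q - 1` (again the least degree), every finite group is rigid below the degree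
`2`, and the nonabelian simple groups are rigid below the degree `3`. -/
def Examples : Prop :=
  (∀ N : ℕ, Ambivalent (Equiv.Perm (Fin N))) ∧
  (∀ (F : Type) [Field F] [CharP F 2], Ambivalent (Matrix.SpecialLinearGroup (Fin 2) F)) ∧
  (∀ (ι : Type) (X : ι → Type) [∀ i, Group (X i)], (∀ i, Ambivalent (X i)) →
    Ambivalent (∀ i, X i)) ∧
  (∀ (X Y : Type) [Group X] [Group Y] (f : X →* Y), Function.Surjective f → Ambivalent X →
    Ambivalent Y) ∧
  (∀ N j : ℕ, 5 ≤ N → 2 ≤ j → Rigid ((2 ^ j - 1) * (N / 2 ^ j)) (Equiv.Perm (Fin N))) ∧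
  (∀ (F : Type) [Field F] [Finite F] [CharP F 2],
    Rigid (Nat.card F - 1) (Matrix.SpecialLinearGroup (Fin 2) F)) ∧
  (∀ (T : Type) [Group T] [Finite T], Rigid 2 T) ∧
  (∀ (T : Type) [Group T] [Finite T] [IsSimpleGroup T], (¬ ∀ x y : T, x * y = y * x) →
    Rigid 3 T)

section

variable {K : Type} (M : Type) [Field K] [NumberField K] [Field M] [NumberField M] [Algebra K M]
  [IsGalois K M] (W : WeierstrassCurve (𝓞 K)) (n : ((M ≃ₐ[K] M) → ℂ) → ℤ)
  (r : IntermediateField K M → ℤ) (k : ℕ)

/-- Let `H` be an ambivalent subgroup of `G`. The orders at `s = 1` of `L(E/F, s)` and of all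
`L(E/F ⊗ ψ, s)`, `ψ` a linear character of `Gal(M/F)`, are even, for all fields `F` which contain the
fixed field of `H` (the groups `Gal(M/F)` are not necessarily ambivalent, and `ψ` is not necessarily
real). If `k ≤ 5` these functions are holomorphic at `s = 1`, and so are the quotients
`L(E/F', s) / L(E/F, s)` and `L(E/F' ⊗ ψ, s) / L(E/F ⊗ ψ, s)`, `F ⊆ F'`. -/
def AmbivalentSubgroups : Prop :=
  ∀ H : Subgroup (M ≃ₐ[K] M), Ambivalent H →
    (∀ F : IntermediateField K M, F.fixingSubgroup ≤ H → Even (r F) ∧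
      (k ≤ 5 → 0 ≤ r F ∧ ∀ F', F ≤ F' → r F ≤ r F')) ∧
    ∀ U : Subgroup (M ≃ₐ[K] M), U ≤ H → ∀ ψ : U →* ℂˣ, ∃ l : ℤ,
      HasOrder (twistedL M W (induced U ψ)) 1 l ∧ Even l ∧
      (k ≤ 5 → 0 ≤ l ∧ ∀ (V : Subgroup (M ≃ₐ[K] M)) (hV : V ≤ U), ∃ l' : ℤ,
        HasOrder (twistedL M W (induced V (ψ.comp (inclusion hV)))) 1 l' ∧ l ≤ l')

/-- Let `X_i` be pairwise commuting ambivalent normal subgroups of `G`, `X_i` rigid below `b_i`. Then
twice the sum of the `b_i` over the `i` for which some `χ` with `n χ ≠ 0` is not trivial on `[X_i, X_i]`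
is at most `k`. -/
def NormalSubgroups : Prop :=
  ∀ (ι : Type) (X : ι → Subgroup (M ≃ₐ[K] M)) (b : ι → ℕ), (∀ i, (X i).Normal) →
    (∀ i, Ambivalent (X i)) →
    (∀ i j, i ≠ j → ∀ x ∈ X i, ∀ y ∈ X j, x * y = y * x) → (∀ i, Rigid (b i) (X i)) →
    ∀ s : Finset ι, (∀ i ∈ s, ∃ χ ∈ Irr (M ≃ₐ[K] M), n χ ≠ 0 ∧
      ∃ x ∈ ⁅X i, X i⁆, χ x ≠ χ 1) → 2 * ∑ i ∈ s, b i ≤ k

/-- `L(E/F, s)` and all `L(E/F ⊗ ψ, s)`, `ψ` a linear character of `Gal(M/F)`, are holomorphic
at `s = 1`, for all `K ⊆ F ⊆ M`. -/
def Holomorphic : Prop :=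
  (∀ F, 0 ≤ r F) ∧ ∀ (H : Subgroup (M ≃ₐ[K] M)) (ψ : H →* ℂˣ),
    ∃ l : ℤ, 0 ≤ l ∧ HasOrder (twistedL M W (induced H ψ)) 1 l

/-- `n χ` is zero for the `χ` which are not trivial on `D`, and the order of `L(E/F, s)` depends only on
the intersection of `F` with the fixed field of `D`. -/
def Invisible (D : Subgroup (M ≃ₐ[K] M)) : Prop :=
  (∀ χ ∈ Irr (M ≃ₐ[K] M), (∃ x ∈ D, χ x ≠ χ 1) → n χ = 0) ∧
  ∀ F : IntermediateField K M, r F = r (F ⊓ IntermediateField.fixedField D)

/-- Let the ambivalent subgroups `X_i` be pairwise commuting, permuted transitively by `G` and rigid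
below `b`, with `k < 2 b * (number of subgroups)`. Then the subgroup generated by the `[X_i, X_i]` is
invisible. If `G` is solvable modulo the subgroup generated by the `X_i`, then `L(E/F, s)` and all
`L(E/F ⊗ ψ, s)` are holomorphic at `s = 1`, for all `K ⊆ F ⊆ M`; if `G` is abelian modulo this
subgroup, then `L(E ⊗ χ, s)` is holomorphic at `s = 1` for all irreducible characters `χ` of `G`. -/
def Families : Prop :=
  ∀ (ι : Type) [Finite ι] (X : ι → Subgroup (M ≃ₐ[K] M)), Family (k / 2) X →
    (∀ i, Ambivalent (X i)) → Invisible M n r (⨆ i, ⁅X i, X i⁆) ∧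
    ((∃ j, derivedSeries (M ≃ₐ[K] M) j ≤ ⨆ i, X i) → Holomorphic M W r) ∧
    (commutator (M ≃ₐ[K] M) ≤ ⨆ i, X i → ∀ χ ∈ Irr (M ≃ₐ[K] M), 0 ≤ n χ)

/-- Let `G` be isomorphic to the wreath product of an ambivalent group `T`, rigid below `b`, with `Q`,
and `k < 2 b |Q|`. If `Q` is solvable, then all `L(E/F, s)` and `L(E/F ⊗ ψ, s)`, `K ⊆ F ⊆ M`, are
holomorphic at `s = 1`. If `Q` is abelian, then all `L(E ⊗ χ, s)` are holomorphic at `s = 1`. -/
def WreathProducts : Prop :=
  ∀ (T Q : Type) [Group T] [Finite T] [Group Q] [Finite Q] (b : ℕ), Rigid b T → Ambivalent T →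
    k < 2 * b * Nat.card Q → Nonempty ((M ≃ₐ[K] M) ≃* RegularWreathProduct T Q) →
    (Group.IsSolvable Q → Holomorphic M W r) ∧
    ((∀ x y : Q, x * y = y * x) → ∀ χ ∈ Irr (M ≃ₐ[K] M), 0 ≤ n χ)

/-- Let `G` be isomorphic to the symmetric group `S_N`, `N ≥ 5`, and `k < 2 (2^j - 1) ⌊N / 2^j⌋`,
`j ≥ 2` (`k < 2 (N - 1)` if `N` is a power of two). Then all `L(E ⊗ χ, s)`, `L(E/F, s)` and
`L(E/F ⊗ ψ, s)` are holomorphic at `s = 1`, `L(E ⊗ χ, 1) ≠ 0` if `χ(1) ≠ 1`, and `L(E/F, s)` has
the same order as `L(E/K, s)` if `F` does not contain the quadratic field `K(√d)` which is the fixed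
field of the commutator subgroup, and the same order as `L(E/K(√d), s)` if `F` contains it; all these
orders are even. -/
def SymmetricGroups : Prop :=
  ∀ N j : ℕ, 5 ≤ N → 2 ≤ j → k < 2 * ((2 ^ j - 1) * (N / 2 ^ j)) →
    Nonempty ((M ≃ₐ[K] M) ≃* Equiv.Perm (Fin N)) →
    Holomorphic M W r ∧
    (∀ χ ∈ Irr (M ≃ₐ[K] M), 0 ≤ n χ ∧ (χ 1 ≠ 1 → n χ = 0)) ∧
    ∀ F : IntermediateField K M, Even (r F) ∧
      r F = r (F ⊓ IntermediateField.fixedField (commutator (M ≃ₐ[K] M)))

/-- The subgroups `D` with `CLayered k D` are invisible, and `L(E/M^H ⊗ ψ, s)` is holomorphic at `s = 1`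
for all subgroups `H` such that `H / (H ∩ D)` is wide, and all linear characters `ψ` of `H`. -/
def Towers : Prop :=
  ∀ D : Subgroup (M ≃ₐ[K] M), CLayered k D → Invisible M n r D ∧
    ∀ (H : Subgroup (M ≃ₐ[K] M)) (P : Type) [Group P] (π : H →* P),
      Function.Surjective π → π.ker = D.subgroupOf H → Wide k P inferInstance →
      ∀ ψ : H →* ℂˣ, ∃ l : ℤ, 0 ≤ l ∧ HasOrder (twistedL M W (induced H ψ)) 1 l

end

/-- **Ambivalent subgroups of the Galois group.**
(A) Examples of ambivalent and of rigid groups.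
(B) Let `E/K` be automorphic over the Galois extension `M/K` with group `G`, with root number `1` for all
real characters of `G`, let `n χ` and `r F` be the orders at the centre `s = 1` of `L(E ⊗ χ, s)` and
`L(E/F, s)`, and let `k` be the order of `L(E/M, s)`.
1. On ambivalent subgroups all orders are even, and if `k ≤ 5`, then all functions and quotients are
   holomorphic at `s = 1`.
2. Let `X_i` be pairwise commuting ambivalent normal subgroups, `X_i` rigid below `b_i`. Then twice the
   sum of the `b_i` over the `i` for which some `χ` with `n χ ≠ 0` is not trivial on `[X_i, X_i]` is at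
   most `k`.
3. Let `X_i` be ambivalent subgroups, pairwise commuting, permuted transitively by `G` and rigid below
   `b`, with `k < 2 b * (number of subgroups)`; let `D` be the subgroup generated by the `[X_i, X_i]`.
 - `L(E ⊗ χ, s)` has neither a zero nor a pole at `s = 1` if `χ` is not trivial on `D`.
 - `L(E/F, s)` and `L(E/F ∩ M^D, s)` have the same order at `s = 1`, for all `K ⊆ F ⊆ M`.
 - If `G` is solvable modulo the subgroup generated by the `X_i`, then `L(E/F, s)` and all
   `L(E/F ⊗ ψ, s)` are holomorphic at `s = 1`, for all `K ⊆ F ⊆ M`.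
 - If `G` is abelian modulo this subgroup, then `L(E ⊗ χ, s)` is holomorphic at `s = 1` for ALL `χ`.
4. Wreath products of an ambivalent group `T`, rigid below `b`, with `Q`, `k < 2 b |Q|`.
5. `G = S_N`, `k < 2 (2^j - 1) ⌊N / 2^j⌋`: everything is holomorphic at `s = 1`, and the zeros come from
   the quadratic field in `M`.
6. The first two statements of 3. hold for all normal subgroups `D` which are built in several steps by
   such families in quotients of `G`, and `L(E/M^H ⊗ ψ, s)` is holomorphic at `s = 1` for all subgroups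
   `H` such that `H / (H ∩ D)` is wide. -/
theorem result :
    Examples ∧
    ∀ (K M : Type) [Field K] [NumberField K] [Field M] [NumberField M] [Algebra K M]
      [IsGalois K M] (E : WeierstrassCurve K) (_ : E.IsElliptic) (W : WeierstrassCurve (𝓞 K))
      (_ : IsModel E W) (_ : Automorphic M W 1) (Λ : FunctionalEquations M W)
      (_ : RealRootOne M W Λ),
      ∃ (n : ((M ≃ₐ[K] M) → ℂ) → ℤ) (r : IntermediateField K M → ℤ) (k : ℕ),
        Orders E W 1 n r ∧ r ⊤ = k ∧ AmbivalentSubgroups M W r k ∧ NormalSubgroups M n k ∧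
        Families M W n r k ∧ WreathProducts M W n r k ∧ SymmetricGroups M W n r k ∧
        Towers M W n r k := by
  refine ⟨⟨fun N => ambivalent_perm, fun F _ _ => ambivalent_sl, fun ι X _ h => Ambivalent.pi h,
    fun X Y _ _ f hf h => h.of_surj hf, fun N j hN hj => ?_, fun F _ _ _ => rigid_sl,
    fun T _ _ => rigid_two T, fun T _ _ _ h => rigid_simple h⟩, ?_⟩
  · exact (rigid_sym hN hj ⊤ le_top).of_surj (Subgroup.topEquiv (G := Equiv.Perm (Fin N))).toMonoidHom
      (Subgroup.topEquiv (G := Equiv.Perm (Fin N))).surjective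
  intro K M _ _ _ _ _ _ E hE W hW a Λ hΛ
  obtain ⟨n, r, ho⟩ := exists_orders (M := M) hE hW (by simp) a
  obtain ⟨k, hk⟩ := Int.eq_ofNat_of_zero_le (ho.nonneg hE hW (by simp) a)
  have fam : Families M W n r k := by
    intro ι _ X hX ha
    have hL : CLayered k (⨆ i, ⁅X i, X i⁆ : Subgroup (M ≃ₐ[K] M)) :=
      CLayered.of_family (Or.inr ⟨hX, ha⟩)
    refine ⟨⟨fun χ hχ h => cz_zero hE hW hΛ a ho hk hL hχ h,
      fun F => cz_field hE hW hΛ a ho hk hL F⟩, ?_, ?_⟩
    · rintro ⟨j, hj⟩
      have h1 := hX.derived_le hj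
      exact ⟨fun F => cz_field_sol hE hW hΛ a ho hk hL h1 F,
        fun H ψ => cz_hol_sol hE hW hΛ a ho hk hL h1 H ψ⟩
    · intro hc χ hχ
      exact cz_met hE hW hΛ a ho hk hL (hX.derived_le (k := 1)
        (by rw [derivedSeries_one]; exact hc)) hχ
  refine ⟨n, r, k, ho, hk, fun H hH => ⟨fun F hF => cz_ambi_field hE hW hΛ a ho hk H hH F hF,
    fun U hU ψ => cz_ambi hE hW hΛ a ho hk H hH U hU ψ⟩, ?_, fam, ?_, ?_, ?_⟩
  · intro ι X b hn ha hc hb s hvis
    exact cz_add hE hW hΛ a ho hk X b hn ha hc hb s hvis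
  · rintro T Q _ _ _ _ b hb hT hlt ⟨e⟩
    have hfin : Finite (RegularWreathProduct T Q) := Finite.of_equiv _ e.toEquiv
    have hlt' : k / 2 < b * Nat.card Q := by
      rw [mul_assoc] at hlt
      omega
    have hF := (wreath_family (T := T) (Q := Q) hb hlt').of_equiv e
    have hle : ∀ S : Subgroup (M ≃ₐ[K] M), (∀ x ∈ S, (e x).right = 1) →
        S ≤ ⨆ q : Q, ((copy T q).range).comap e.toMonoidHom := by
      intro S hS x hx
      have h1 := base_le (e x) (hS x hx)
      have h2 : x = e.symm (e x) := (e.symm_apply_apply x).symm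
      rw [h2]
      have h3 : (⨆ q : Q, (copy T q).range : Subgroup (RegularWreathProduct T Q)) ≤
          (⨆ q : Q, ((copy T q).range).comap e.toMonoidHom).comap e.symm.toMonoidHom := by
        refine iSup_le fun q y hy => ?_
        rw [Subgroup.mem_comap]
        refine (le_iSup (fun q : Q => ((copy T q).range).comap e.toMonoidHom) q) ?_
        rw [Subgroup.mem_comap]
        change e (e.symm y) ∈ _
        rw [e.apply_symm_apply]
        exact hy
      exact h3 h1
    obtain ⟨-, h3, h4⟩ := fam Q _ hF (fun q => ambivalent_copy hT e q)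
    let ρ : (M ≃ₐ[K] M) →* Q := RegularWreathProduct.rightHom.comp e.toMonoidHom
    refine ⟨fun hQ => h3 ?_, fun hQ => h4 ?_⟩
    · obtain ⟨j, hj⟩ := (Group.isSolvable_def Q).mp hQ
      refine ⟨j, hle _ fun x hx => ?_⟩
      have h5 : ρ x ∈ derivedSeries Q j :=
        map_derivedSeries_le_derivedSeries (f := ρ) j ⟨x, hx, rfl⟩
      rw [hj, Subgroup.mem_bot] at h5
      exact h5
    · refine hle _ fun x hx => ?_
      have h5 : commutator (M ≃ₐ[K] M) ≤ ρ.ker := by
        rw [commutator_def, Subgroup.commutator_le]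
        intro x _ y _
        rw [MonoidHom.mem_ker, map_commutatorElement, commutatorElement_eq_one_iff_mul_comm]
        exact hQ _ _
      exact h5 hx
  · rintro N j hN hj hlt ⟨e⟩
    have hA : Ambivalent (M ≃ₐ[K] M) :=
      ambivalent_perm.of_surj (f := e.symm.toMonoidHom) e.symm.surjective
    have hR : Rigid ((2 ^ j - 1) * (N / 2 ^ j)) (M ≃ₐ[K] M) := by
      have h1 := (rigid_sym hN hj ⊤ le_top).of_surj
        (Subgroup.topEquiv (G := Equiv.Perm (Fin N))).toMonoidHom
        (Subgroup.topEquiv (G := Equiv.Perm (Fin N))).surjective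
      exact h1.of_surj e.symm.toMonoidHom e.symm.surjective
    obtain ⟨h2, h3, h4⟩ := fam Unit _ (family_top hR (r := k / 2) (by omega))
      (fun _ => ambivalent_top hA)
    rw [iSup_comm_top] at h2
    have htop : (⨆ _ : Unit, (⊤ : Subgroup (M ≃ₐ[K] M))) = ⊤ := iSup_const
    refine ⟨h3 ⟨0, by rw [htop]; exact le_top⟩, fun χ hχ => ⟨h4 (by rw [htop]; exact le_top) χ hχ,
      fun hne => ?_⟩, fun F => ⟨(cz_ambi_field hE hW hΛ a ho hk ⊤ (ambivalent_top hA) F
        le_top).1, h2.2 F⟩⟩
    apply h2.1 χ hχ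
    by_contra hcon
    push Not at hcon
    exact hne (deg_one_of_comm hχ hcon)
  · intro D hD
    exact ⟨⟨fun χ hχ h => cz_zero hE hW hΛ a ho hk hD hχ h,
      fun F => cz_field hE hW hΛ a ho hk hD F⟩,
      fun H P _ π hπ hker hw ψ => cz_hol hE hW hΛ a ho hk hD H π hπ hker hw ψ⟩

end Pool.Agent.Results.MP_7ed9c3_nt.AmbivalentGroups
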