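import Mathlib
import Pool.Agent.H701.HW.Cur

/-!
# Elliptic curves over number fields: the centre `s = 1`, for all Galois groups

`M/K` is a Galois extension of number fields with group `G = M ≃ₐ[K] M`, an arbitrary finite group, and
`E` is an elliptic curve over `K` with an integral equation `W` (`IsModel E W`), automorphic over `M`.
For nonsolvable `G` it is not known that the functions `L(E/F, s)` of the fields `F` between `K` and `M`
are holomorphic at the centre `s = 1`; this is proved here, for all groups, when the order `k` of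
`L(E/M, s)` at `s = 1` is less than `2p` for all odd prime divisors `p` of `|G|` (always true if
`k ≤ 5`), the root numbers of the real characters are `1`, and there is no zero of quaternion type.
All zeros come from a solvable extension of `K`, and for perfect `G` from `K` itself.

The L-functions are real ones (the definitions are in the library, in `Q92/RT/Def`, `Q92/RT/Ind`,
`Q7/RL/Ord`, `Q7/RL/Orders`, `Q7/RL/Model`):
* `LOrder E s₀ n`: the Euler product `L(E, s)` of the problem, computed from minimal models, has a
  meromorphic continuation to `ℂ`, of order `n` at `s₀`;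
* `twistedL M W φ`: the function `L(E ⊗ φ, s)` for a class function `φ` of `G`, without the Euler factors
  at the primes dividing `6` or the discriminant of `W` or ramified in `M` (they have no zeros and poles
  for `Re s ≥ 1`); `HasOrder g s₀ n`: `g` has a meromorphic continuation to `ℂ`, of order `n` at `s₀`;
* `induced H ψ`: the character of `G` induced by the linear character `ψ` of the subgroup `H`, so that
  `twistedL M W (induced H ψ)` is `L(E/M^H ⊗ ψ, s)`; `Irr G`: the irreducible characters;
* `Orders E W s₀ n r`: `n χ` is the order at `s₀` of `L(E ⊗ χ, s)`, `χ` irreducible, and `r F` is the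
  order of `L(E/F, s)`, `K ⊆ F ⊆ M`; `⊤` is the field `M` and `⊥` the field `K`;
* `Automorphic M W s₀` (known if `E` is modular over `M`, by Brauer induction and solvable descent): the
  `L(E ⊗ χ, s)`, `χ` irreducible, have a meromorphic continuation, and the `L(E/M^H ⊗ ψ, s)` with `H`
  SOLVABLE have one that is holomorphic at `s₀`; nothing is known for the other subgroups;
* `FunctionalEquations M W`: the functional equations `Λ(χ, s) = w(χ) Λ(χ̄, 2 - s)` near `s = 1`, and
  `RealRootOne M W Λ`: the root number `w(χ)` is `1` for all real valued `χ`. If the real places of `K` are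
  unramified in `M` and the places of bad reduction split completely in `M` then
  `w(χ) = w(E/K) ^ χ(1)`, so this means `w(E/K) = 1`.

From `Pool/Agent/H701`:
* `CP.oddGen G` is the subgroup `O²(G)` generated by the elements of odd order;
* `HW.QuatZero r`: there is a surjection `f` of a solvable subgroup `H` of `G` onto the quaternion group
  `Q₈` such that `L(E, s)` has different orders at `s = 1` over the fields fixed by `ker f` and by
  `f⁻¹ {1, -1}`. In other words: for some Galois extension `F'/F` of intermediate fields of `M/K` with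
  group `Q₈` and solvable `M/F`, the function `L(E/F ⊗ ρ, s)` of the irreducible character `ρ` of degree
  `2` vanishes at `s = 1`;
* `HW.TwistZero r` is the same with `Q₈` replaced by the groups `X` generated by a normal extraspecial
  2-group `E'` with centre `{1, z}` and an element `t` of odd prime power order which acts irreducibly
  on `E' / {1, z}` (structure `CP.Twisted`; the smallest example is `X = SL₂(𝔽₃)`), and with `{1, z}`
  instead of `{1, -1}`.
-/

set_option autoImplicit false

open NumberField Subgroup Pool.Agent.H541R3.ART Pool.Agent.W446.AS Pool.Agent.Q7.RL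
  Pool.Agent.Q92.RT Pool.Agent.W353.NF Pool.Agent.H341R2.EC Pool.Agent.H701.HW
open Pool.Agent.H701.CP (oddGen)

/-- Let `E/K` be automorphic over the Galois extension `M/K` with an arbitrary group `G`, with root
number `1` for all real characters of `G`, let `n χ` and `r F` be the orders at the centre `s = 1` of
`L(E ⊗ χ, s)` and `L(E/F, s)`, and let the order `k` of `L(E/M, s)` be less than `2p` for all odd primes
`p` dividing the order of `G` (which is always true for `k ≤ 5`, and for `k ≤ 9` if `3` does not divide
the order of `G`).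

(1) A zero of twisted type is a zero of quaternion type.

Suppose that there is no zero of twisted type (in particular: none of quaternion type; or `G` has no
section `Q₈`).

(2) `L(E ⊗ χ, s)` is holomorphic at `s = 1` for ALL irreducible characters `χ` of `G`, `L(E/F, s)` is
holomorphic at `s = 1` for ALL fields `K ⊆ F ⊆ M`, and so are the `L(E/F ⊗ ψ, s)`, `ψ` a linear
character of the Galois group of `M/F`, and the quotients `L(E/F', s) / L(E/F, s)`,
`L(E/F' ⊗ ψ, s) / L(E/F ⊗ ψ, s)`, `F ⊆ F'`, `F'/F` Galois or not.

(3) The zeros come from a solvable extension `L/K` inside `M`, the fixed field of a normal subgroup `N`: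
`N ≤ O²(G)`, and `N` contains the commutators and the elements of 2-power order of `O²(G)`, so that
`Gal(L/K)` is an extension of an abelian group of odd order by a 2-group. If `L(E ⊗ χ, 1) = 0` then `χ` is
trivial on `N` and its degree is a power of two `≤ k / 2`; `L(E/F, s)` and `L(E/F ∩ L, s)` have the same
order for all `F`; `L(E/F ⊗ ψ, 1) ≠ 0` if `ψ` is not trivial on `Gal(M/FL)`.

(4) If `G` is perfect, then `L(E/F, s)` has order `k` for all `K ⊆ F ⊆ M`, including `K`, and
`L(E ⊗ χ, 1) ≠ 0` for all `χ ≠ 1`. -/
theorem Pool.Agent.Results.MP_7ed9c3_nt.CentreAllGroups.result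
    (K M : Type) [Field K] [NumberField K] [Field M] [NumberField M] [Algebra K M] [IsGalois K M]
    (E : WeierstrassCurve K) (hE : E.IsElliptic) (W : WeierstrassCurve (𝓞 K)) (hW : IsModel E W)
    (a : Automorphic M W 1) (Λ : FunctionalEquations M W) (hΛ : RealRootOne M W Λ) :
    ∃ (n : ((M ≃ₐ[K] M) → ℂ) → ℤ) (r : IntermediateField K M → ℤ) (k : ℕ),
      Orders E W 1 n r ∧ r ⊤ = k ∧ (TwistZero r → QuatZero r) ∧
      ((∀ p : ℕ, p.Prime → p ≠ 2 → p ∣ Nat.card (M ≃ₐ[K] M) → k < 2 * p) → ¬ TwistZero r →
        (∃ N : Subgroup (M ≃ₐ[K] M), N.Normal ∧ N ≤ oddGen (M ≃ₐ[K] M) ∧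
          (∀ x ∈ oddGen (M ≃ₐ[K] M), ∀ y ∈ oddGen (M ≃ₐ[K] M), x * y * x⁻¹ * y⁻¹ ∈ N) ∧
          (∀ x ∈ oddGen (M ≃ₐ[K] M), ∀ j : ℕ, x ^ 2 ^ j = 1 → x ∈ N) ∧
          (∀ χ ∈ Irr (M ≃ₐ[K] M), 0 ≤ n χ ∧ (n χ ≠ 0 → (∀ x ∈ N, χ x = χ 1) ∧
            ∃ d : ℕ, χ 1 = ((2 ^ d : ℕ) : ℂ) ∧ 2 ^ (d + 1) ≤ k)) ∧
          (∀ F, 0 ≤ r F ∧ r F = r (F ⊓ IntermediateField.fixedField N)) ∧
          (∀ F F', F ≤ F' → r F ≤ r F') ∧
          (∀ (H : Subgroup (M ≃ₐ[K] M)) (ψ : H →* ℂˣ), ∃ l : ℤ,
            HasOrder (twistedL M W (induced H ψ)) 1 l ∧ 0 ≤ l ∧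
            ((∃ x : H, (x : M ≃ₐ[K] M) ∈ N ∧ ψ x ≠ 1) → l = 0) ∧
            ∀ (H' : Subgroup (M ≃ₐ[K] M)) (hH : H' ≤ H), ∃ l' : ℤ,
              HasOrder (twistedL M W (induced H' (ψ.comp (inclusion hH)))) 1 l' ∧ l ≤ l')) ∧
        (commutator (M ≃ₐ[K] M) = ⊤ →
          (∀ F, r F = k) ∧ ∀ χ ∈ Irr (M ≃ₐ[K] M), χ ≠ (fun _ => 1) → n χ = 0)) := by
  obtain ⟨n, r, ho⟩ := exists_orders (M := M) hE hW (by simp) a
  obtain ⟨k, hk⟩ := Int.eq_ofNat_of_zero_le (ho.nonneg hE hW (by simp) a)
  exact ⟨n, r, k, ho, hk, quat_of_twist', fun hp hT =>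
    ⟨curve_central hE hW hΛ a ho hk hp hT, fun hG => curve_perfect hE hW hΛ a ho hk hp hT hG⟩⟩
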