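import Pool.Agent.H453.EN.Cont

/-!
# Analytic continuation of `L(E/K, s)`: products of `L`-series of quadratic twists over fields of smaller degree

Let `K/k` be a finite extension of number fields.  Suppose that there is a field `F` with `k ⊆ F ⊊ K` such
that the Galois group `G` of the normal closure `M` of `K/F` has a nontrivial normal subgroup of 2-power
order; for example `K/F` is quadratic, or `[K : F] = 4` (a transitive group of degree four has a nontrivial
normal 2-subgroup), or `K` has an automorphism of order two over `k`, or `[K : F]` is a power of two and `G` is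
solvable.  We show that for every elliptic curve `E` over `k`

`L(E/K, s) = L(E_{D_1}/Z_1, s) ⋯ L(E_{D_r}/Z_r, s)`

up to finitely many Euler factors, with extensions `Z_i/k` of degree less than `[K : k]` and quadratic twists
`E_{D_i}` of `E` by `D_i ∈ Z_i`, which depend only on `K/k`; the sum of the degrees of the `Z_i` is `[K : k]`.
All exponents are one.  So here not only meromorphic but analytic continuation is inherited: if the
`L`-series of all quadratic twists of `E` over all extensions of `k` of degree less than `[K : k]` are
entire, then so is `L(E/K, s)`, up to finitely many Euler factors.  In an extension `K/k` of minimal degree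
for which this fails, the groups `Gal(M/F)` have no nontrivial normal 2-subgroup, `Aut(K/k)` has odd order,
and if `Gal(M/F)` is solvable and `F ≠ K`, then `[K : F]` is divisible by an odd prime number `p`, and it is a
power of `p` if there is no field between `F` and `K`.

For a quartic field `K` with the group `S_4` or `A_4`, for example, `L(E/K, s) = L(E/k, s) L(E_D/Z, s)`, where `Z`
is the cubic resolvent field; more generally, if `G = A ⋊ H` is a group of affine transformations of
`A = 𝔽_2 ^ n` and `H` the stabiliser of a point, the fields `Z_i` are `k` and the fixed fields of the stabilisers of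
representatives of the orbits of `H` on the nonzero linear functionals.

The proof.  Let `A` be an elementary abelian normal 2-subgroup of `G`, not contained in `H = Gal(M/K)`.  The
group `A H` acts on the affine space `A H / H = A / (A ∩ H)` over `𝔽_2`, and the permutation character is the
sum, over the orbits of the linear functionals `f`, of the characters induced from the characters
`± 1` of the stabilisers of `f` which are given by the action on the affine functions `f`, `f + 1`.  A
character of order two of `Gal(M/Z)` belongs to a quadratic extension `Z(√D)/Z`, and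
`L(E/Z(√D), s) = L(E/Z, s) L(E_D/Z, s)` up to finitely many Euler factors.
-/

set_option autoImplicit false

namespace Pool.Agent.Results.MP_7ed9c3_nt.ProductsOfTwists

open NumberField IsDedekindDomain
open Pool.Agent.R433.MD (Ext)
open Pool.Agent.N19.BR.Def
open scoped Classical

/-- The quadratic twist `y² = x³ - 27 d² c₄ x - 54 d³ c₆` of `E` by `d`, where `c₄`, `c₆` are the
invariants of `E`. -/
def QuadraticTwist {F : Type} [Field F] (E : WeierstrassCurve F) (d : F) : WeierstrassCurve F where
  a₁ := 0
  a₂ := 0
  a₃ := 0
  a₄ := -27 * d ^ 2 * E.c₄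
  a₆ := -54 * d ^ 3 * E.c₆

/-- The `L`-series of an elliptic curve over `F`, the product of the Euler factors of the minimal models
`V`. -/
noncomputable def LFunction {F : Type} [Field F] [NumberField F]
    (V : HeightOneSpectrum (𝓞 F) → WeierstrassCurve (𝓞 F)) (s : ℂ) : ℂ := ∏' v, factor V s v

/-- The incomplete `L`-series of an elliptic curve over `F`: the product of the Euler factors of the
minimal models `V` at the primes of `F` that do not divide the natural number `N`. -/
noncomputable def IncompleteLFunction {F : Type} [Field F] [NumberField F] (N : ℕ)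
    (V : HeightOneSpectrum (𝓞 F) → WeierstrassCurve (𝓞 F)) (s : ℂ) : ℂ :=
  ∏' v : HeightOneSpectrum (𝓞 F), if ((N : ℕ) : 𝓞 F) ∈ v.asIdeal then 1 else factor V s v

/-- There are finitely many extensions `Z i` of `k` of degree less than `[K : k]` and nonzero integers `D i`
of `Z i` such that the sum of the degrees of the `Z i` is `[K : k]` and such that for all elliptic curves `E`
over `k` and all sufficiently divisible natural numbers `N` the incomplete `L`-series of `E` over `K` is the
product of the incomplete `L`-series of the quadratic twists of `E` by `D i` over `Z i`, for `Re s > 3/2`. -/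
def IsProduct (k : Type) [Field k] [NumberField k] (K : Type) [Field K] [NumberField K]
    [Algebra k K] : Prop :=
  ∃ (ι : Type) (_ : Fintype ι) (Z : ι → Ext k) (D : ∀ i, 𝓞 (Z i).F),
    (∀ i, D i ≠ 0 ∧ Module.finrank k (Z i).F < Module.finrank k K) ∧
    ∑ i, Module.finrank k (Z i).F = Module.finrank k K ∧
    ∀ (E : WeierstrassCurve k) [E.IsElliptic]
      (V : HeightOneSpectrum (𝓞 K) → WeierstrassCurve (𝓞 K))
      (_ : MinimalModels (E.map (algebraMap k K)) V)
      (W : ∀ i, HeightOneSpectrum (𝓞 (Z i).F) → WeierstrassCurve (𝓞 (Z i).F))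
      (_ : ∀ i, MinimalModels (QuadraticTwist (E.map (algebraMap k (Z i).F)) (D i : (Z i).F)) (W i)),
      ∃ N₀ : ℕ, N₀ ≠ 0 ∧ ∀ N : ℕ, N ≠ 0 → N₀ ∣ N → ∀ s : ℂ, 3 / 2 < s.re →
        IncompleteLFunction N V s = ∏ i, IncompleteLFunction N (W i) s

/-- For some natural number `N ≥ 1` the incomplete `L`-series of `E` over `K`, without the Euler factors at
the primes dividing `N`, has an analytic continuation to `U`, for example to `U = ℂ`. -/
def AlmostContinuable (U : Set ℂ) (K : Type) [Field K] [NumberField K] (E : WeierstrassCurve K) :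
    Prop :=
  ∃ N : ℕ, N ≠ 0 ∧ ∃ Λ : ℂ → ℂ, AnalyticOnNhd ℂ Λ U ∧
    (∃ V : HeightOneSpectrum (𝓞 K) → WeierstrassCurve (𝓞 K), MinimalModels E V) ∧
    ∀ V : HeightOneSpectrum (𝓞 K) → WeierstrassCurve (𝓞 K), MinimalModels E V →
      ∀ s : ℂ, 3 / 2 < s.re → Λ s = IncompleteLFunction N V s

/-- `L(E/K, s)` has an analytic continuation to `U`. -/
def Continuable (U : Set ℂ) (K : Type) [Field K] [NumberField K] (E : WeierstrassCurve K) : Prop :=
  ∃ Λ : ℂ → ℂ, AnalyticOnNhd ℂ Λ U ∧
    (∃ V : HeightOneSpectrum (𝓞 K) → WeierstrassCurve (𝓞 K), MinimalModels E V) ∧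
    ∀ V : HeightOneSpectrum (𝓞 K) → WeierstrassCurve (𝓞 K), MinimalModels E V →
      ∀ s : ℂ, 3 / 2 < s.re → Λ s = LFunction V s

/-- The structure of a minimal counterexample `K/k`.

(1) For every field `F` between `k` and `K` and the normal closure `M` of `K/F` the group `Gal(M/F)` has no
nontrivial normal 2-subgroup.  If it is solvable and `F ≠ K`, then `[K : F]` is divisible by an odd prime
number `p`, and it is a power of `p` if there is no field strictly between `F` and `K`.

(2) The group `Aut(K/k)` has odd order. -/
def Shape (k : Type) [Field k] (K : Type) [Field K] [Algebra k K] : Prop :=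
  (∀ (F : IntermediateField k K) (M : Type) [Field M] [NumberField M] [Algebra K M]
    [IsNormalClosure F K M],
    (∀ T : Subgroup Gal(M/F), T.Normal → IsPGroup 2 T → T = ⊥) ∧
    (Group.IsSolvable Gal(M/F) → Module.finrank F K ≠ 1 →
      ∃ p : ℕ, p.Prime ∧ p ≠ 2 ∧ p ∣ Module.finrank F K ∧
        ((∀ L : IntermediateField F K, L = ⊥ ∨ L = ⊤) → ∃ d, Module.finrank F K = p ^ d))) ∧
  Odd (Nat.card Gal(K/k))

/-- **Products of `L`-series of quadratic twists over fields of smaller degree.**

Let `K/k` be an extension of number fields.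

(1) For all elliptic curves `E` over `k` the `L`-series of `E` over `K` is, up to finitely many Euler
factors, a product of `L`-series (with exponents one) of quadratic twists of `E` over extensions of `k` of
degree less than `[K : k]`, the same for all `E`, or `K/k` has the structure `Shape`.

(2) Let `E` be an elliptic curve over `k` and `U` a set, for example `U = ℂ`.  Suppose that for all quadratic
twists of `E` over all extensions of `k` of degree less than `[K : k]` the `L`-series, without finitely many
Euler factors, has an analytic continuation to `U`.  Then this is true for `E` over `K`, or `K/k` has the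
structure `Shape`.

(3) Let `U` be a set in the half plane `Re s > 1`, or in the union of this half plane and the point `1`.
Suppose that for all quadratic twists of `E` over all extensions of `k` of degree less than `[K : k]` the
(complete) `L`-series has an analytic continuation to `U`.  Then this is true for `E` over `K`, or `K/k` has
the structure `Shape`. -/
theorem result (k : Type) [Field k] [NumberField k] (K : Type) [Field K] [NumberField K]
    [Algebra k K] :
    (IsProduct k K ∨ Shape k K) ∧
    (∀ (U : Set ℂ) (E : WeierstrassCurve k) [E.IsElliptic],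
      (∀ Z : Ext k, Module.finrank k Z.F < Module.finrank k K → ∀ D : 𝓞 Z.F, D ≠ 0 →
        AlmostContinuable U Z.F (QuadraticTwist (E.map (algebraMap k Z.F)) (D : Z.F))) →
      AlmostContinuable U K (E.map (algebraMap k K)) ∨ Shape k K) ∧
    ∀ (U : Set ℂ) (_ : ∀ s ∈ U, 1 < s.re ∨ s = 1) (E : WeierstrassCurve k) [E.IsElliptic],
      (∀ Z : Ext k, Module.finrank k Z.F < Module.finrank k K → ∀ D : 𝓞 Z.F, D ≠ 0 →
        Continuable U Z.F (QuadraticTwist (E.map (algebraMap k Z.F)) (D : Z.F))) →
      Continuable U K (E.map (algebraMap k K)) ∨ Shape k K := by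
  have hshape : ¬ Pool.Agent.H453.EN.FacN (Module.finrank k K) (⟨K⟩ : Ext k) → Shape k K := by
    intro hK0
    have hK := Pool.Agent.H453.EN.no_pos hK0
    refine ⟨fun F M _ _ _ _ => ?_, Pool.Agent.H453.EN.aut_odd hK⟩
    have hn : Normal F M := IsNormalClosure.normal (F := F) (K := K) (L := M)
    have hg : IsGalois F M := ⟨⟩
    exact ⟨fun T hT h2 => Pool.Agent.H453.EN.two_radical hK F M hT h2,
      fun hs hF => Pool.Agent.H453.EN.solvable_case hK F M hF⟩
  have hinc : ∀ {F : Type} [Field F] [NumberField F] (N : ℕ)
      (V : HeightOneSpectrum (𝓞 F) → WeierstrassCurve (𝓞 F)) (s : ℂ),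
      IncompleteLFunction N V s = Pool.Agent.H453.EN.LN N V s := by
    intro F _ _ N V s
    unfold IncompleteLFunction Pool.Agent.H453.EN.LN Pool.Agent.H453.EN.ef Pool.Agent.H453.EN.Dv
    refine tprod_congr fun v => ?_
    rw [Pool.Agent.N19.BR.factor_eq]
  have hcomp : ∀ {F : Type} [Field F] [NumberField F]
      (V : HeightOneSpectrum (𝓞 F) → WeierstrassCurve (𝓞 F)) (s : ℂ),
      LFunction V s = Pool.Agent.R433.MD.LL V s := fun V s => Pool.Agent.N19.BR.prod_eq V s
  by_cases hK : Pool.Agent.H453.EN.FacN (Module.finrank k K) (⟨K⟩ : Ext k)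
  · refine ⟨Or.inl ?_, fun U E hE hc => Or.inl ?_, fun U hU E hE hc => Or.inl ?_⟩
    · obtain ⟨ι, hι, Z, D, hZ, hdeg, hL⟩ := hK
      refine ⟨ι, hι, Z, D, hZ, hdeg, fun E hE V hV W hW => ?_⟩
      obtain ⟨N₀, hN₀, h⟩ := hL E hE V ((Pool.Agent.N19.BR.minimalModels_iff _ _).1 hV) W
        (fun i => (Pool.Agent.N19.BR.minimalModels_iff _ _).1 (hW i))
      refine ⟨N₀, hN₀, fun N hN hNN s hs => ?_⟩
      rw [hinc, h N hN hNN s hs]
      exact Finset.prod_congr rfl fun i _ => (hinc N (W i) s).symm
    · have hEK : (E.map (algebraMap k K)).IsElliptic := inferInstance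
      obtain ⟨N, hN, Λ, hΛ, h⟩ := Pool.Agent.H453.EN.cont_incomplete hK E hE (U := U) (by
        intro Z hZ D hD
        obtain ⟨N, hN, Λ, hΛ, -, h⟩ := hc Z hZ D hD
        refine ⟨N, hN, Λ, hΛ, fun W hW s hs => ?_⟩
        rw [h W ((Pool.Agent.N19.BR.minimalModels_iff _ _).2 hW) s hs, hinc])
      refine ⟨N, hN, Λ, hΛ, ?_, fun V hV s hs => ?_⟩
      · obtain ⟨V, hV⟩ := Pool.Agent.R433.MD.exists_minimal (E.map (algebraMap k K)) hEK
        exact ⟨V, (Pool.Agent.N19.BR.minimalModels_iff _ _).2 hV⟩
      · rw [hinc]
        exact h V ((Pool.Agent.N19.BR.minimalModels_iff _ _).1 hV) s hs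
    · have hEK : (E.map (algebraMap k K)).IsElliptic := inferInstance
      obtain ⟨Λ, hΛ, h⟩ := Pool.Agent.H453.EN.cont_complete hK E hE (U := U) hU (by
        intro Z hZ D hD
        obtain ⟨Λ, hΛ, -, h⟩ := hc Z hZ D hD
        refine ⟨Λ, hΛ, fun W hW s hs => ?_⟩
        rw [h W ((Pool.Agent.N19.BR.minimalModels_iff _ _).2 hW) s hs, hcomp])
      refine ⟨Λ, hΛ, ?_, fun V hV s hs => ?_⟩
      · obtain ⟨V, hV⟩ := Pool.Agent.R433.MD.exists_minimal (E.map (algebraMap k K)) hEK
        exact ⟨V, (Pool.Agent.N19.BR.minimalModels_iff _ _).2 hV⟩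
      · rw [hcomp]
        exact h V ((Pool.Agent.N19.BR.minimalModels_iff _ _).1 hV) s hs
  · exact ⟨Or.inr (hshape hK), fun U E hE hc => Or.inr (hshape hK),
      fun U hU E hE hc => Or.inr (hshape hK)⟩

end Pool.Agent.Results.MP_7ed9c3_nt.ProductsOfTwists
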