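import Pool.Agent.H453.K2.Cont

/-!
# Analytic continuation of `L(E/K, s)`: products of `L`-series of twists by characters over fields of smaller degree

Let `K/k` be a finite extension of number fields.  Suppose that there is a field `F` with `k ⊆ F ⊊ K` such
that the Galois group `G` of the normal closure `M` of `K/F` has a nontrivial solvable normal subgroup; for
example `[K : F] ≤ 4`, or `G` is solvable, or `K` has a nontrivial automorphism over `k`.  We show that for
every elliptic curve `E` over `k`

`L(E/K, s) = L(E ⊗ χ_1 / Z_1, s) ⋯ L(E ⊗ χ_r / Z_r, s)`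

up to finitely many Euler factors, with extensions `Z_i/k` of degree less than `[K : k]` and characters `χ_i` of
Galois groups of extensions of `Z_i` with `χ_i ^ p = 1` for a prime number `p` that divides `[K : k]`.  The `Z_i`
and `χ_i` depend only on `K/k`, and the sum of the degrees of the `Z_i` is `[K : k]`.  All exponents are one.
So analytic continuation is inherited: if the `L`-series of the twists of `E` by the characters of prime order
`p ∣ [K : k]` over the extensions of `k` of degree less than `[K : k]` are entire, then so is `L(E/K, s)`, up to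
finitely many Euler factors.  In an extension `K/k` of minimal degree for which this fails, all the groups
`Gal(M/F)`, `F ≠ K`, have trivial solvable radical, `[K : F] ≥ 5` for all fields `F ≠ K` between `k` and `K`, and
`K` has no nontrivial automorphism over `k`.

The proof.  Let `A` be an elementary abelian normal `p`-subgroup of `G`, not contained in `H = Gal(M/K)`.  The
group `B = A H` acts on the affine space `B / H = A / (A ∩ H)` over `𝔽_p` by affine transformations
`v ↦ L(g) v + t(g)`.  By Fourier analysis on `A / (A ∩ H)` the permutation character of `B / H` is the sum, over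
the orbits of `B` on the linear functionals `f`, of the characters induced from the characters
`g ↦ exp(2 π i f(t(g)) / p)` of the stabilisers of `f`.  For solvable `G` this is the argument of Uchida and van
der Waall on the quotients `ζ_K/ζ_k`.  The degrees are the lengths of the orbits, and they are less than
`|B / H|` since `0` is an orbit.  The local factors of the two sides at the good primes are compared with the
values of the induced characters at the powers of the Frobenius elements.
-/

set_option autoImplicit false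

namespace Pool.Agent.Results.MP_7ed9c3_nt.TrivialSolvableRadical

open NumberField IsDedekindDomain
open Pool.Agent.R433.MD (Ext)
open Pool.Agent.N19.BR.Def
open Pool.Agent.Q92.AR (frob Unramified)
open scoped Classical

/-- The `L`-series of an elliptic curve over `F`, the product of the Euler factors of the minimal models
`V`. -/
noncomputable def LFunction {F : Type} [Field F] [NumberField F]
    (V : HeightOneSpectrum (𝓞 F) → WeierstrassCurve (𝓞 F)) (s : ℂ) : ℂ := ∏' v, factor V s v

/-- The incomplete `L`-series of an elliptic curve over `F`: the product of the Euler factors of the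
minimal models `V` at the primes of `F` that do not divide the natural number `N`. -/
noncomputable def IncompleteLFunction {F : Type} [Field F] [NumberField F] (N : ℕ)
    (V : HeightOneSpectrum (𝓞 F) → WeierstrassCurve (𝓞 F)) (s : ℂ) : ℂ :=
  ∏' v : HeightOneSpectrum (𝓞 F), if ((N : ℕ) : 𝓞 F) ∈ v.asIdeal then 1 else factor V s v

/-- The Euler factor at `v` of the twist by a character with the value `c` at the Frobenius elements of `v`:
`(1 - c a_v q_v^{-s} + c² q_v^{1-2s})⁻¹` if the reduction is good and `(1 - c a_v q_v^{-s})⁻¹` if it is bad,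
where `a_v` is `q_v` minus the number of affine points of the reduction of `V v`. -/
noncomputable def twistedFactor {F : Type} [Field F] [NumberField F]
    (V : HeightOneSpectrum (𝓞 F) → WeierstrassCurve (𝓞 F)) (c s : ℂ)
    (v : HeightOneSpectrum (𝓞 F)) : ℂ :=
  (1 - c * ((Ideal.absNorm v.asIdeal : ℂ)
        - (Nat.card {xy : (𝓞 F ⧸ v.asIdeal) × (𝓞 F ⧸ v.asIdeal) //
            ((V v).map (Ideal.Quotient.mk v.asIdeal)).toAffine.Equation xy.1 xy.2} : ℂ))
        * (Ideal.absNorm v.asIdeal : ℂ) ^ (-s)
    + c ^ 2 * ((if (V v).Δ ∈ v.asIdeal then 0 else (Ideal.absNorm v.asIdeal : ℂ))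
        * (Ideal.absNorm v.asIdeal : ℂ) ^ (-2 * s)))⁻¹

/-- The characters of the Galois group of `M/F`. -/
abbrev Character (F M : Type) [Field F] [Field M] [Algebra F M] : Type := Gal(M/F) →* ℂˣ

/-- `χ ^ p = 1`. -/
def OrderDivides {F M : Type} [Field F] [Field M] [Algebra F M] (p : ℕ) (χ : Character F M) : Prop :=
  ∀ g : Gal(M/F), χ g ^ p = 1

/-- The incomplete `L`-series of the twist of an elliptic curve over `F`, with minimal models `V`, by the
character `χ` of the Galois group of `M/F`: the product of the Euler factors at the primes `v` of `F` that do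
not divide the natural number `N`, with the value of `χ` at a Frobenius element of `v`.  (It will only be used
if `N` is divisible by all primes that ramify in `M`; then the choice of the Frobenius elements does not
matter.) -/
noncomputable def TwistedLFunction {F M : Type} [Field F] [NumberField F] [Field M] [NumberField M]
    [Algebra F M] (N : ℕ) (V : HeightOneSpectrum (𝓞 F) → WeierstrassCurve (𝓞 F))
    (χ : Character F M) (s : ℂ) : ℂ :=
  ∏' v : HeightOneSpectrum (𝓞 F), if ((N : ℕ) : 𝓞 F) ∈ v.asIdeal then 1 else
    twistedFactor V ((χ (frob M v) : ℂˣ) : ℂ) s v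

/-- The natural number `N ≥ 1` is divisible by all primes of `F` that ramify in `M`. -/
def RamificationDivides (F M : Type) [Field F] [NumberField F] [Field M] [NumberField M]
    [Algebra F M] (N : ℕ) : Prop :=
  N ≠ 0 ∧ ∀ v : HeightOneSpectrum (𝓞 F), ¬ Unramified M v → ((N : ℕ) : 𝓞 F) ∈ v.asIdeal

/-- An extension `Z` of `k`, a Galois extension `M` of `Z` and a character `χ` of the Galois group of
`M/Z`. -/
structure CharacterOver (k : Type) [Field k] [NumberField k] where
  /-- the extension of `k` -/
  Z : Ext k
  /-- the extension of `Z` -/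
  M : Ext Z.F
  /-- it is Galois -/
  galois : IsGalois Z.F M.F
  /-- the character -/
  χ : Character Z.F M.F

/-- For all sufficiently divisible natural numbers `N` the incomplete `L`-series of `E` over `K` is the
product of the incomplete `L`-series of the twists of `E` by the characters `D i`, for `Re s > 3/2`. -/
def ProductFormula {k : Type} [Field k] [NumberField k] (K : Type) [Field K] [NumberField K]
    [Algebra k K] {ι : Type} [Fintype ι] (D : ι → CharacterOver k) (E : WeierstrassCurve k) : Prop :=
  ∀ V : HeightOneSpectrum (𝓞 K) → WeierstrassCurve (𝓞 K),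
    MinimalModels (E.map (algebraMap k K)) V →
  ∀ W : ∀ i, HeightOneSpectrum (𝓞 (D i).Z.F) → WeierstrassCurve (𝓞 (D i).Z.F),
    (∀ i, MinimalModels (E.map (algebraMap k (D i).Z.F)) (W i)) →
  ∃ N₀ : ℕ, N₀ ≠ 0 ∧ (∀ i, RamificationDivides (D i).Z.F (D i).M.F N₀) ∧
    ∀ N : ℕ, N ≠ 0 → N₀ ∣ N → ∀ s : ℂ, 3 / 2 < s.re →
      IncompleteLFunction N V s = ∏ i, TwistedLFunction N (W i) (D i).χ s

/-- There are finitely many characters `D i = χ i` over extensions `Z i` of `k` of degree less than `[K : k]`
such that `χ i ^ p = 1` for a prime number `p` that divides `[K : k]`, such that the sum of the degrees of the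
`Z i` is `[K : k]`, and such that for all elliptic curves `E` over `k` the `L`-series of `E` over `K` is the
product of the `L`-series of the twists of `E` by the `χ i`, up to finitely many Euler factors. -/
def IsProduct (k : Type) [Field k] [NumberField k] (K : Type) [Field K] [NumberField K]
    [Algebra k K] : Prop :=
  ∃ (ι : Type) (_ : Fintype ι) (D : ι → CharacterOver k),
    (∃ p : ℕ, p.Prime ∧ p ∣ Module.finrank k K ∧ ∀ i, OrderDivides p (D i).χ) ∧
    (∀ i, Module.finrank k (D i).Z.F < Module.finrank k K) ∧
    ∑ i, Module.finrank k (D i).Z.F = Module.finrank k K ∧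
    ∀ (E : WeierstrassCurve k) [E.IsElliptic], ProductFormula K D E

/-- For some natural number `N ≥ 1` that is divisible by all primes that ramify in `M` the incomplete
`L`-series of the twist of `E` over `K` by the character `χ` of the Galois group of `M/K`, without the Euler
factors at the primes dividing `N`, has an analytic continuation to `U`, for example to `U = ℂ`. -/
def TwistContinuable (U : Set ℂ) {K M : Type} [Field K] [NumberField K] [Field M] [NumberField M]
    [Algebra K M] (E : WeierstrassCurve K) (χ : Character K M) : Prop :=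
  ∃ N : ℕ, RamificationDivides K M N ∧ ∃ Λ : ℂ → ℂ, AnalyticOnNhd ℂ Λ U ∧
    ∀ V : HeightOneSpectrum (𝓞 K) → WeierstrassCurve (𝓞 K), MinimalModels E V →
      ∀ s : ℂ, 3 / 2 < s.re → Λ s = TwistedLFunction N V χ s

/-- For some natural number `N ≥ 1` the incomplete `L`-series of `E` over `K`, without the Euler factors at
the primes dividing `N`, has an analytic continuation to `U`, for example to `U = ℂ`. -/
def AlmostContinuable (U : Set ℂ) (K : Type) [Field K] [NumberField K] (E : WeierstrassCurve K) :
    Prop :=
  ∃ N : ℕ, N ≠ 0 ∧ ∃ Λ : ℂ → ℂ, AnalyticOnNhd ℂ Λ U ∧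
    (∃ V : HeightOneSpectrum (𝓞 K) → WeierstrassCurve (𝓞 K), MinimalModels E V) ∧
    ∀ V : HeightOneSpectrum (𝓞 K) → WeierstrassCurve (𝓞 K), MinimalModels E V →
      ∀ s : ℂ, 3 / 2 < s.re → Λ s = IncompleteLFunction N V s

/-- `L(E/K, s)` has an analytic continuation to `U`. -/
def Continuable (U : Set ℂ) (K : Type) [Field K] [NumberField K] (E : WeierstrassCurve K) : Prop :=
  ∃ Λ : ℂ → ℂ, AnalyticOnNhd ℂ Λ U ∧
    (∃ V : HeightOneSpectrum (𝓞 K) → WeierstrassCurve (𝓞 K), MinimalModels E V) ∧
    ∀ V : HeightOneSpectrum (𝓞 K) → WeierstrassCurve (𝓞 K), MinimalModels E V →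
      ∀ s : ℂ, 3 / 2 < s.re → Λ s = LFunction V s

/-- For all extensions `Z` of `k` of degree less than `[K : k]`, all Galois extensions `M` of `Z` and all
characters `χ` of the Galois group of `M/Z` with `χ ^ p = 1` for a prime number `p` that divides `[K : k]`, the
`L`-series of the twist of `E` over `Z` by `χ`, without finitely many Euler factors, has an analytic
continuation to `U`. -/
def TwistsContinuable (U : Set ℂ) (k : Type) [Field k] [NumberField k] (K : Type) [Field K]
    [Algebra k K] (E : WeierstrassCurve k) : Prop :=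
  ∀ D : CharacterOver k, Module.finrank k D.Z.F < Module.finrank k K →
    (∃ p : ℕ, p.Prime ∧ p ∣ Module.finrank k K ∧ OrderDivides p D.χ) →
    TwistContinuable U (E.map (algebraMap k D.Z.F)) D.χ

/-- The structure of a minimal counterexample `K/k`.

(1) For every field `F ≠ K` between `k` and `K` and the normal closure `M` of `K/F` the group `Gal(M/F)` has
no nontrivial solvable normal subgroup, it is not solvable, and `[K : F] ≥ 5`.

(2) The field `K` has no nontrivial automorphism over `k`. -/
def Shape (k : Type) [Field k] (K : Type) [Field K] [Algebra k K] : Prop :=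
  (∀ (F : IntermediateField k K) (M : Type) [Field M] [NumberField M] [Algebra K M]
    [IsNormalClosure F K M],
    (∀ T : Subgroup Gal(M/F), T.Normal → Group.IsSolvable T → T = ⊥) ∧
    (F ≠ ⊤ → ¬ Group.IsSolvable Gal(M/F) ∧ 5 ≤ Module.finrank F K)) ∧
  ∀ σ : Gal(K/k), σ = 1

/-- **Products of `L`-series of twists by characters over fields of smaller degree.**

Let `K/k` be an extension of number fields.

(1) For all elliptic curves `E` over `k` the `L`-series of `E` over `K` is, up to finitely many Euler
factors, a product of `L`-series (with exponents one) of twists of `E` by characters, of order `1` or a prime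
number that divides `[K : k]`, over extensions of `k` of degree less than `[K : k]`, the same for all `E`, or
`K/k` has the structure `Shape`.

(2) Let `E` be an elliptic curve over `k` and `U` a set, for example `U = ℂ`.  Suppose that for all twists of
`E` by such characters over all extensions of `k` of degree less than `[K : k]` the `L`-series, without
finitely many Euler factors, has an analytic continuation to `U`.  Then this is true for `E` over `K`, or `K/k`
has the structure `Shape`.

(3) If moreover `U` is contained in the union of the half plane `Re s > 1` and the point `1`, then the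
(complete) `L`-series of `E` over `K` has an analytic continuation to `U`, or `K/k` has the structure
`Shape`. -/
theorem result (k : Type) [Field k] [NumberField k] (K : Type) [Field K] [NumberField K]
    [Algebra k K] :
    (IsProduct k K ∨ Shape k K) ∧
    ∀ (U : Set ℂ) (E : WeierstrassCurve k) [E.IsElliptic], TwistsContinuable U k K E →
      (AlmostContinuable U K (E.map (algebraMap k K)) ∨ Shape k K) ∧
      ((∀ s ∈ U, 1 < s.re ∨ s = 1) →
        Continuable U K (E.map (algebraMap k K)) ∨ Shape k K) := by
  have hshape : ¬ Pool.Agent.H453.K2.FacC (Module.finrank k K) (⟨K⟩ : Ext k) → Shape k K := by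
    intro hK
    refine ⟨fun F M _ _ _ _ => ?_, Pool.Agent.H453.K2.aut_trivial hK⟩
    have hn : Normal F M := IsNormalClosure.normal (F := F) (K := K) (L := M)
    have hg : IsGalois F M := ⟨⟩
    refine ⟨fun T hT hs => Pool.Agent.H453.K2.no_solvable hK F M hT hs, fun hF => ?_⟩
    have h1 := Pool.Agent.H453.K2.five_le hK F M (fun h => hF (by
      have h2 := Module.finrank_mul_finrank k F K
      rw [h, mul_one] at h2
      exact IntermediateField.eq_of_le_of_finrank_eq le_top (by
        rw [h2, IntermediateField.finrank_top'])))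
    exact ⟨h1.2, h1.1⟩
  have hinc : ∀ {F : Type} [Field F] [NumberField F] (N : ℕ)
      (V : HeightOneSpectrum (𝓞 F) → WeierstrassCurve (𝓞 F)) (s : ℂ),
      IncompleteLFunction N V s = Pool.Agent.H453.EN.LN N V s := by
    intro F _ _ N V s
    unfold IncompleteLFunction Pool.Agent.H453.EN.LN Pool.Agent.H453.EN.ef Pool.Agent.H453.EN.Dv
    refine tprod_congr fun v => ?_
    rw [Pool.Agent.N19.BR.factor_eq]
  have hcomp : ∀ {F : Type} [Field F] [NumberField F]
      (V : HeightOneSpectrum (𝓞 F) → WeierstrassCurve (𝓞 F)) (s : ℂ),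
      LFunction V s = Pool.Agent.R433.MD.LL V s := fun V s => Pool.Agent.N19.BR.prod_eq V s
  have hfac : ∀ {F : Type} [Field F] [NumberField F]
      (V : HeightOneSpectrum (𝓞 F) → WeierstrassCurve (𝓞 F)) (c : HeightOneSpectrum (𝓞 F) → ℂ)
      (s : ℂ) (v : HeightOneSpectrum (𝓞 F)),
      twistedFactor V (c v) s v = (Pool.Agent.H453.K2.tlf V c s v)⁻¹ := by
    intro F _ _ V c s v
    have h1 := Pool.Agent.N19.BR.factor_eq V
    unfold twistedFactor
    congr 1
    unfold Pool.Agent.H453.K2.tlf Pool.Agent.H341R2.EC.trc Pool.Agent.H341R2.EC.dlt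
    have h0 : ((Pool.Agent.H921R2.TatePole.nm v : ℕ) : ℂ) ≠ 0 := by
      have := Pool.Agent.H921R2.TatePole.two_le_nm v
      exact_mod_cast (by omega : Pool.Agent.H921R2.TatePole.nm v ≠ 0)
    have e1 : Nat.card {xy : (𝓞 F ⧸ v.asIdeal) × (𝓞 F ⧸ v.asIdeal) //
        ((V v).map (Ideal.Quotient.mk v.asIdeal)).toAffine.Equation xy.1 xy.2} =
        Pool.Agent.H341R2.EC.aff (Pool.Agent.H341R2.EC.red v (V v)) := by
      unfold Pool.Agent.H341R2.EC.aff Pool.Agent.H341R2.EC.red
      refine Nat.card_congr (Equiv.subtypeEquivRight fun xy => ?_)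
      rw [WeierstrassCurve.Affine.equation_iff]
    have e2 : ((Pool.Agent.H921R2.TatePole.nm v : ℕ) : ℂ) ^ (1 - 2 * s) =
        ((Pool.Agent.H921R2.TatePole.nm v : ℕ) : ℂ) *
          ((Pool.Agent.H921R2.TatePole.nm v : ℕ) : ℂ) ^ (-2 * s) := by
      rw [sub_eq_add_neg, Complex.cpow_add _ _ h0, Complex.cpow_one]
      congr 2
      ring
    have e3 : (Ideal.absNorm v.asIdeal : ℂ) = ((Pool.Agent.H921R2.TatePole.nm v : ℕ) : ℂ) := rfl
    rw [e1, e2, e3]
    push_cast
    split_ifs with h
    · ring
    · ring
  have htw : ∀ {F M : Type} [Field F] [NumberField F] [Field M] [NumberField M] [Algebra F M] (N : ℕ)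
      (V : HeightOneSpectrum (𝓞 F) → WeierstrassCurve (𝓞 F)) (χ : Gal(M/F) →* ℂˣ) (s : ℂ),
      TwistedLFunction N V χ s = Pool.Agent.H453.K2.LC N V (Pool.Agent.H453.K2.cf χ) s := by
    intro F M _ _ _ _ _ N V χ s
    unfold TwistedLFunction Pool.Agent.H453.K2.LC Pool.Agent.H453.K2.tef Pool.Agent.H453.EN.Dv
    refine tprod_congr fun v => ?_
    rw [← hfac]
    rfl
  by_cases hK : Pool.Agent.H453.K2.FacC (Module.finrank k K) (⟨K⟩ : Ext k)
  · refine ⟨Or.inl ?_, fun U E hE hc => ?_⟩
    · obtain ⟨ι, hι, Z, M, hM, χ, ⟨p, hp, hpd, hχ⟩, hZ, hdeg, hL⟩ := hK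
      refine ⟨ι, hι, fun i => ⟨Z i, M i, hM i, χ i⟩, ⟨p, hp, hpd, fun i g =>
        DFunLike.congr_fun (hχ i) g⟩, hZ, hdeg, fun E hE V hV W hW => ?_⟩
      obtain ⟨N₀, hN₀, h⟩ := hL E hE V ((Pool.Agent.N19.BR.minimalModels_iff _ _).1 hV) W
        (fun i => (Pool.Agent.N19.BR.minimalModels_iff _ _).1 (hW i))
      choose Ni hNi hNr using fun i => Pool.Agent.H453.K2.exists_nat_fin
        (Pool.Agent.Q92.AR.ramified_finite (K := (Z i).F) (M := (M i).F))
      have hne : N₀ * ∏ i, Ni i ≠ 0 :=
        mul_ne_zero hN₀ (Finset.prod_ne_zero_iff.2 fun i _ => hNi i)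
      refine ⟨N₀ * ∏ i, Ni i, hne, fun i => ⟨hne, fun v hv => ?_⟩, fun N hN hNN s hs => ?_⟩
      · exact Pool.Agent.H453.EN.dv_of_dvd ((Finset.dvd_prod_of_mem Ni (Finset.mem_univ i)).trans
          (dvd_mul_left _ _)) (hNr i v hv)
      · rw [hinc, h N hN ((dvd_mul_right _ _).trans hNN) s hs]
        exact Finset.prod_congr rfl fun i _ => (htw N (W i) (χ i) s).symm
    · have hEK : (E.map (algebraMap k K)).IsElliptic := inferInstance
      have hc' : ∀ Z : Ext k, Module.finrank k Z.F < Module.finrank k K →
          ∀ (M : Ext Z.F), IsGalois Z.F M.F → ∀ χ : Gal(M.F/Z.F) →* ℂˣ,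
          (∃ p : ℕ, p.Prime ∧ p ∣ Module.finrank k K ∧ χ ^ p = 1) →
          Pool.Agent.H453.K2.ContC (fun Λ => AnalyticOnNhd ℂ Λ U) E Z M χ := by
        rintro Z hZ M hM χ ⟨p, hp, hpd, hχ⟩
        obtain ⟨N, hN, Λ, hΛ, h⟩ := hc ⟨Z, M, hM, χ⟩ hZ ⟨p, hp, hpd, fun g =>
          DFunLike.congr_fun hχ g⟩
        refine ⟨N, hN.1, Λ, hΛ, fun W hW s hs => ?_⟩
        rw [h W ((Pool.Agent.N19.BR.minimalModels_iff _ _).2 hW) s hs, htw]
      refine ⟨Or.inl ?_, fun hU => Or.inl ?_⟩
      · obtain ⟨N, hN, Λ, hΛ, h⟩ := Pool.Agent.H453.K2.cont_incomplete hK E hE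
          (P := fun Λ => AnalyticOnNhd ℂ Λ U)
          (fun ι T f hf s hs => Finset.analyticAt_fun_prod _ fun i _ => hf i s hs)
          (fun f g hf hg s hs => (hf s hs).fun_mul (hg.analyticAt s)) hc'
        refine ⟨N, hN, Λ, hΛ, ?_, fun V hV s hs => ?_⟩
        · obtain ⟨V, hV⟩ := Pool.Agent.R433.MD.exists_minimal (E.map (algebraMap k K)) hEK
          exact ⟨V, (Pool.Agent.N19.BR.minimalModels_iff _ _).2 hV⟩
        · rw [hinc]
          exact h V ((Pool.Agent.N19.BR.minimalModels_iff _ _).1 hV) s hs
      · obtain ⟨Λ, hΛ, h⟩ := Pool.Agent.H453.K2.cont_complete hK E hE (U := U) hU hc'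
        refine ⟨Λ, hΛ, ?_, fun V hV s hs => ?_⟩
        · obtain ⟨V, hV⟩ := Pool.Agent.R433.MD.exists_minimal (E.map (algebraMap k K)) hEK
          exact ⟨V, (Pool.Agent.N19.BR.minimalModels_iff _ _).2 hV⟩
        · rw [hcomp]
          exact h V ((Pool.Agent.N19.BR.minimalModels_iff _ _).1 hV) s hs
  · exact ⟨Or.inr (hshape hK), fun U E hE hc =>
      ⟨Or.inr (hshape hK), fun hU => Or.inr (hshape hK)⟩⟩

end Pool.Agent.Results.MP_7ed9c3_nt.TrivialSolvableRadical
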